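import Pool.Agent.Helper60.T3.GoalsI

/-!
# Project T3, packet SLP: slopes differ at generic points if they differ at rational points
-/

set_option autoImplicit false

open MvPolynomial

namespace Pool.Agent.Helper89.T3.SLP

open WeierstrassCurve
open Pool.Agent.Helper29.BL Pool.Agent.Helper92.Ru Pool.Agent.Helper42.SG
open Pool.Agent.Helper68.VN (mapS Ax blkB)
open Pool.Agent.Helper60.T3

noncomputable section

/-! ## Gauss -/

theorem gauss {A Ω : Type} [CommRing A] [IsDomain A] [UniqueFactorizationMonoid A] [Field Ω]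
    (φ : A →+* Ω) (hφ : Function.Injective φ) (y : Ω) (H P : Polynomial A) (hH : Irreducible H)
    (hd : H.natDegree ≠ 0) (h0 : H.eval₂ φ y = 0) (h1 : P.eval₂ φ y = 0) : H ∣ P := by
  have hprim : H.IsPrimitive := hH.isPrimitive hd
  let F := FractionRing A
  let ψ : F →+* Ω := IsFractionRing.lift (g := φ) hφ
  have hψ : ψ.comp (algebraMap A F) = φ := by
    ext a
    exact IsFractionRing.lift_algebraMap hφ a
  have hHF : Irreducible (H.map (algebraMap A F)) :=
    hprim.irreducible_iff_irreducible_map_fraction_map.1 hH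
  refine hprim.dvd_of_fraction_map_dvd_fraction_map (K := F) ?_
  by_contra hcon
  have hcop : IsCoprime (H.map (algebraMap A F)) (P.map (algebraMap A F)) :=
    (hHF.coprime_iff_not_dvd).2 hcon
  obtain ⟨u, v, huv⟩ := hcop
  have h2 := congrArg (fun R : Polynomial F => R.eval₂ ψ y) huv
  simp only [Polynomial.eval₂_add, Polynomial.eval₂_mul, Polynomial.eval₂_map, hψ, h0, h1,
    mul_zero, add_zero, Polynomial.eval₂_one] at h2
  exact zero_ne_one h2

section gen

variable {K Ω : Type} [Field K] [Field Ω] [Algebra K Ω] {σ : Type} [DecidableEq σ]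

/-- polynomials in `X_i'` -/
def Ph (i' : σ) : MvPolynomial σ K ≃ₐ[K] Polynomial (MvPolynomial {i : σ // i ≠ i'} K) :=
  (renameEquiv K (Equiv.optionSubtypeNe i').symm).trans (optionEquivLeft K {i : σ // i ≠ i'})

theorem Ph_X_self (i' : σ) : Ph (K := K) i' (X i') = Polynomial.X := by
  simp [Ph]

theorem Ph_X_ne (i' : σ) {i : σ} (h : i ≠ i') :
    Ph (K := K) i' (X i) = Polynomial.C (X ⟨i, h⟩) := by
  simp [Ph, Equiv.optionSubtypeNe_symm_of_ne h]

theorem Ph_C (i' : σ) (a : K) : Ph (K := K) i' (C a) = Polynomial.C (C a) := by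
  simp [Ph]

theorem Ph_deg (i' : σ) (P : MvPolynomial σ K) : (Ph i' P).natDegree = degreeOf i' P := by
  unfold Ph
  rw [AlgEquiv.trans_apply, natDegree_optionEquivLeft]
  have := degreeOf_rename_of_injective (p := P)
    (Equiv.injective (Equiv.optionSubtypeNe i').symm) i'
  rw [Equiv.optionSubtypeNe_symm_self] at this
  exact this

theorem Ph_ev (i' : σ) (X0 : σ → Ω) (P : MvPolynomial σ K) :
    (Ph i' P).eval₂ (aeval (fun i : {i : σ // i ≠ i'} => X0 i) : _ →ₐ[K] Ω).toRingHom (X0 i') =
      aeval X0 P := by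
  induction P using MvPolynomial.induction_on with
  | C a => simp [Ph_C]
  | add p q hp hq => rw [map_add, Polynomial.eval₂_add, hp, hq, map_add]
  | mul_X p i hp =>
    rw [map_mul, Polynomial.eval₂_mul, hp, map_mul, aeval_X]
    congr 1
    by_cases h : i = i'
    · subst h
      rw [Ph_X_self, Polynomial.eval₂_X]
    · rw [Ph_X_ne i' h, Polynomial.eval₂_C]
      simp

theorem Ph_der (i' : σ) (P : MvPolynomial σ K) :
    Ph i' (pderiv i' P) = Polynomial.derivative (Ph i' P) := by
  induction P using MvPolynomial.induction_on with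
  | C a => simp [Ph_C]
  | add p q hp hq => rw [map_add, map_add, hp, hq, map_add, Polynomial.derivative_add]
  | mul_X p i hp =>
    rw [Derivation.leibniz, smul_eq_mul, smul_eq_mul, map_add, map_mul, map_mul, hp, map_mul,
      Polynomial.derivative_mul]
    by_cases h : i = i'
    · subst h
      rw [pderiv_X_self, Ph_X_self, Polynomial.derivative_X, map_one]
      ring
    · rw [pderiv_X_of_ne h, Ph_X_ne i' h, Polynomial.derivative_C, map_zero]
      ring

/-- the point `X0` is generic on `h = 0` -/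
theorem generic (i' : σ) (h : MvPolynomial σ K) (hi : Irreducible h) (hd : degreeOf i' h ≠ 0)
    (X0 : σ → Ω) (hX : aeval X0 h = 0)
    (hind : AlgebraicIndependent K (fun i : {i : σ // i ≠ i'} => X0 i))
    (P : MvPolynomial σ K) (hP : aeval X0 P = 0) : h ∣ P := by
  have h1 := gauss (aeval (fun i : {i : σ // i ≠ i'} => X0 i) : _ →ₐ[K] Ω).toRingHom
    hind (X0 i') (Ph i' h) (Ph i' P) ((MulEquiv.irreducible_iff (Ph i')).2 hi)
    (by rw [Ph_deg]; exact hd) (by rw [Ph_ev]; exact hX) (by rw [Ph_ev]; exact hP)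
  exact (map_dvd_iff (Ph i')).1 h1

theorem not_dvd_pderiv [CharZero K] (i' : σ) (h : MvPolynomial σ K) (hd : degreeOf i' h ≠ 0) :
    ¬ h ∣ pderiv i' h := by
  intro hdvd
  have h1 : Ph i' h ∣ Polynomial.derivative (Ph i' h) := by
    rw [← Ph_der]
    exact (map_dvd_iff (Ph i')).2 hdvd
  rw [← Ph_deg] at hd
  have h2 := Polynomial.eq_zero_of_dvd_of_natDegree_lt h1 (Polynomial.natDegree_derivative_lt hd)
  exact hd (Polynomial.derivative_eq_zero.1 h2)

/-- the values of polynomials are algebraic over the field of the other coordinates -/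
theorem alg_val (i' : σ) (h : MvPolynomial σ K) (hd : degreeOf i' h ≠ 0)
    (X0 : σ → Ω) (hX : aeval X0 h = 0)
    (hind : AlgebraicIndependent K (fun i : {i : σ // i ≠ i'} => X0 i)) (P : MvPolynomial σ K) :
    IsAlgebraic (Algebra.adjoin K (Set.range fun i : {i : σ // i ≠ i'} => X0 i)) (aeval X0 P) := by
  set S := Algebra.adjoin K (Set.range fun i : {i : σ // i ≠ i'} => X0 i) with hS
  have hmem : ∀ i, i ≠ i' → X0 i ∈ S := fun i hi =>
    Algebra.subset_adjoin ⟨⟨i, hi⟩, rfl⟩
  have hi' : IsAlgebraic S (X0 i') := by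
    -- the polynomial `Ph h` with coefficients in `S`
    let φ : MvPolynomial {i : σ // i ≠ i'} K →ₐ[K] S :=
      aeval fun i => (⟨X0 i, hmem i.1 i.2⟩ : S)
    have hφ : S.val.comp φ = aeval (fun i : {i : σ // i ≠ i'} => X0 i) := by
      ext i
      simp [φ]
    have hφi : Function.Injective φ := by
      intro a b hab
      apply hind
      have := congrArg S.val hab
      rw [← AlgHom.comp_apply, ← AlgHom.comp_apply, hφ] at this
      exact this
    refine ⟨(Ph i' h).map φ.toRingHom, ?_, ?_⟩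
    · intro h0
      have h1 : Ph i' h = 0 := Polynomial.map_injective _ hφi (by rw [h0, Polynomial.map_zero])
      apply hd
      rw [← Ph_deg, h1, Polynomial.natDegree_zero]
    · rw [Polynomial.aeval_def, Polynomial.eval₂_map]
      have h2 : (algebraMap S Ω).comp φ.toRingHom =
          (aeval (fun i : {i : σ // i ≠ i'} => X0 i) : _ →ₐ[K] Ω).toRingHom := by
        rw [← hφ]
        rfl
      rw [h2, Ph_ev]
      exact hX
  induction P using MvPolynomial.induction_on with
  | C a =>
    rw [aeval_C, IsScalarTower.algebraMap_apply K S Ω]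
    exact isAlgebraic_algebraMap _
  | add p q hp hq =>
    rw [map_add]
    exact hp.add hq
  | mul_X p i hp =>
    rw [map_mul, aeval_X]
    refine hp.mul ?_
    by_cases hii : i = i'
    · rw [hii]
      exact hi'
    · exact isAlgebraic_algebraMap (⟨X0 i, hmem i hii⟩ : S)

/-- two independent families: the intersection of the algebraic closures -/
theorem alg_inter {τ : Type} (x y : τ → Ω) (hind : AlgebraicIndependent K (Sum.elim x y)) (m : Ω)
    (h1 : IsAlgebraic (Algebra.adjoin K (Set.range x)) m)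
    (h2 : IsAlgebraic (Algebra.adjoin K (Set.range y)) m) : IsAlgebraic K m := by
  have hI : (AlgebraicIndependent.matroid K Ω).Indep (Set.range x ∪ Set.range y) := by
    rw [← Set.Sum.elim_range, AlgebraicIndependent.matroid_indep_iff]
    exact hind.coe_range
  have h3 := hI.closure_inter_eq_inter_closure
  have h4 : Set.range x ∩ Set.range y = ∅ := by
    rw [Set.eq_empty_iff_forall_notMem]
    rintro z ⟨⟨i, rfl⟩, ⟨j, hj⟩⟩
    have := hind.injective (a₁ := Sum.inl i) (a₂ := Sum.inr j) (by simpa using hj.symm)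
    cases this
  rw [h4, AlgebraicIndependent.matroid_closure_eq, AlgebraicIndependent.matroid_closure_eq,
    AlgebraicIndependent.matroid_closure_eq] at h3
  have h5 : m ∈ ((Subalgebra.algebraicClosure (Algebra.adjoin K (∅ : Set Ω)) Ω :
      Subalgebra (Algebra.adjoin K (∅ : Set Ω)) Ω) : Set Ω) := by
    rw [h3]
    exact ⟨h1, h2⟩
  have h6 : IsAlgebraic (Algebra.adjoin K (∅ : Set Ω)) m := h5
  rw [Algebra.adjoin_empty] at h6
  exact Subalgebra.isAlgebraic_of_isAlgebraic_bot h6

/-! ## One surface -/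

/-- the polynomial `B_i(X_i)` -/
def Bp (W : σ → Affine K) (i : σ) : MvPolynomial σ K :=
  4 * X i ^ 3 + C (W i).b₂ * X i ^ 2 + 2 * C (W i).b₄ * X i + C (W i).b₆

theorem eval_Bp (W : σ → Affine K) (i : σ) (x : σ → K) : eval x (Bp W i) = Bf (W i) (x i) := by
  simp [Bp, Bf]

theorem aeval_Bp (W : σ → Affine K) (i : σ) (x : σ → Ω) :
    aeval x (Bp W i) = Bf (mapS Ω W i) (x i) := by
  simp [Bp, Bf, mapS]

theorem Bp_ne [CharZero K] (W : σ → Affine K) (i : σ) : Bp W i ≠ 0 := by
  intro h0
  have h1 := congrArg (Ph i) h0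
  simp only [Bp, map_add, map_mul, map_pow, Ph_X_self, Ph_C, map_zero] at h1
  have h2 := congrArg (fun p => Polynomial.coeff p 3) h1
  have h4 : (Ph i) (4 : MvPolynomial σ K) = Polynomial.C 4 := by
    rw [map_ofNat]
    rfl
  have h5 : (Ph i) (2 : MvPolynomial σ K) = Polynomial.C 2 := by
    rw [map_ofNat]
    rfl
  rw [h4, h5] at h2
  simp only [Polynomial.coeff_add, mul_assoc, Polynomial.coeff_C_mul, Polynomial.coeff_X_pow,
    Polynomial.coeff_X, Polynomial.coeff_C, Polynomial.coeff_zero] at h2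
  norm_num at h2

theorem Bp_deg (W : σ → Affine K) {i i0 : σ} (h : i0 ≠ i) : degreeOf i0 (Bp W i) = 0 := by
  have hX : degreeOf i0 (X i : MvPolynomial σ K) = 0 := degreeOf_X_of_ne h
  have hp : ∀ (c : K) (n : ℕ), degreeOf i0 (C c * X i ^ n : MvPolynomial σ K) = 0 := by
    intro c n
    refine Nat.le_zero.1 ((degreeOf_mul_le _ _ _).trans ?_)
    rw [degreeOf_C, zero_add]
    refine (degreeOf_pow_le _ _ _).trans ?_
    rw [hX, mul_zero]
  have e : Bp W i = C 4 * X i ^ 3 + C (W i).b₂ * X i ^ 2 + C (2 * (W i).b₄) * X i ^ 1 +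
      C (W i).b₆ := by
    unfold Bp
    simp only [map_mul, pow_one]
    congr 3
  rw [e]
  refine Nat.le_zero.1 ((degreeOf_add_le _ _ _).trans (max_le ?_ (by rw [degreeOf_C])))
  refine (degreeOf_add_le _ _ _).trans (max_le ?_ (by rw [hp]))
  exact (degreeOf_add_le _ _ _).trans (max_le (by rw [hp]) (by rw [hp]))

/-- `N_i` as a polynomial -/
def Np (W : σ → Affine K) (h : MvPolynomial σ K) (i : σ) : MvPolynomial σ K :=
  Bp W i * pderiv i h ^ 2

theorem eval_Np (W : σ → Affine K) (h : MvPolynomial σ K) (i : σ) (x : σ → K) :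
    eval x (Np W h i) = NN W h x i := by
  simp [Np, NN, eval_Bp]

theorem aeval_Np (W : σ → Affine K) (h : MvPolynomial σ K) (i : σ) (x : σ → Ω) :
    aeval x (Np W h i) = Bf (mapS Ω W i) (x i) * aeval x (pderiv i h) ^ 2 := by
  simp [Np, aeval_Bp]

theorem eval_of_dvd {h P : MvPolynomial σ K} (hd : h ∣ P) {x : σ → K} (hx : eval x h = 0) :
    eval x P = 0 := by
  obtain ⟨q, rfl⟩ := hd
  rw [map_mul, hx, zero_mul]

/-- the last component does not vanish at the generic point -/
theorem last_ne [CharZero K] (W : σ → Affine K) (h : MvPolynomial σ K) (i0 i' : σ) (hne : i0 ≠ i')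
    (hi : Irreducible h) (hd : degreeOf i' h ≠ 0) (x : σ → K) (hx : eval x h = 0)
    (hN : NN W h x i0 ≠ 0 ∨ NN W h x i' ≠ 0) (X0 : σ → Ω) (hX : aeval X0 h = 0)
    (hind : AlgebraicIndependent K (fun i : {i : σ // i ≠ i'} => X0 i)) :
    aeval X0 (Np W h i') ≠ 0 := by
  intro h0
  have h1 := generic i' h hi hd X0 hX hind _ h0
  unfold Np at h1
  rcases hi.prime.dvd_or_dvd h1 with h2 | h2
  · obtain ⟨q, hq⟩ := h2
    have hq0 : q ≠ 0 := by
      rintro rfl
      exact Bp_ne W i' (by rw [hq, mul_zero])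
    have h3 := Bp_deg W hne
    rw [hq, degreeOf_mul_eq hi.ne_zero hq0] at h3
    have h4 : degreeOf i0 h = 0 := by omega
    have h5 : pderiv i0 h = 0 := by
      apply pderiv_eq_zero_of_notMem_vars
      intro h6
      rw [mem_vars_iff_degreeOf_ne_zero] at h6
      exact h6 h4
    have h6 : NN W h x i0 = 0 := by
      unfold NN
      rw [h5, map_zero]
      ring
    have h7 : NN W h x i' = 0 := by
      rw [← eval_Np]
      refine eval_of_dvd ?_ hx
      exact h1
    rcases hN with hN | hN
    · exact hN h6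
    · exact hN h7
  · exact not_dvd_pderiv i' h hd (hi.prime.dvd_of_dvd_pow h2)

theorem root_eq {m : Ω} (hm : IsAlgebraic K m) {r : K} (hr : (minpoly K m).eval r = 0) :
    m = algebraMap K Ω r := by
  have hirr := minpoly.irreducible (isAlgebraic_iff_isIntegral.1 hm)
  have hdvd : (Polynomial.X - Polynomial.C r) ∣ minpoly K m :=
    Polynomial.dvd_iff_isRoot.2 hr
  obtain ⟨q, hq⟩ := hdvd
  have hu : IsUnit q := by
    rcases hirr.isUnit_or_isUnit hq with h | h
    · exact absurd h (Polynomial.not_isUnit_X_sub_C r)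
    · exact h
  have h1 : Polynomial.aeval m (minpoly K m) = 0 := minpoly.aeval K m
  rw [hq, map_mul, map_sub, Polynomial.aeval_X, Polynomial.aeval_C] at h1
  rcases mul_eq_zero.1 h1 with h | h
  · exact sub_eq_zero.1 h
  · exact absurd h ((hu.map (Polynomial.aeval m)).ne_zero)

/-- the slope at the rational point is the slope at the generic point -/
theorem slope_eq [CharZero K] (W : σ → Affine K) (h : MvPolynomial σ K) (i0 i' : σ)
    (hi : Irreducible h) (hd : degreeOf i' h ≠ 0) (x : σ → K) (hx : eval x h = 0)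
    (hN : NN W h x i0 ≠ 0 ∨ NN W h x i' ≠ 0) (X0 : σ → Ω) (hX : aeval X0 h = 0)
    (hind : AlgebraicIndependent K (fun i : {i : σ // i ≠ i'} => X0 i)) (m : Ω)
    (hm : IsAlgebraic K m) (hmN : aeval X0 (Np W h i0) = m * aeval X0 (Np W h i')) :
    algebraMap K Ω (NN W h x i0) = m * algebraMap K Ω (NN W h x i') := by
  obtain ⟨n, hn⟩ : ∃ n, n = (minpoly K m).natDegree := ⟨_, rfl⟩
  have hR : aeval X0 (∑ j ∈ Finset.range (n + 1),
      C ((minpoly K m).coeff j) * Np W h i0 ^ j * Np W h i' ^ (n - j)) = 0 := by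
    rw [map_sum]
    have h1 : ∀ j ∈ Finset.range (n + 1), aeval X0 (C ((minpoly K m).coeff j) * Np W h i0 ^ j *
        Np W h i' ^ (n - j)) = aeval X0 (Np W h i') ^ n * (algebraMap K Ω ((minpoly K m).coeff j) *
          m ^ j) := by
      intro j hj
      have hj' : j ≤ n := by
        rw [Finset.mem_range] at hj
        omega
      rw [map_mul, map_mul, map_pow, map_pow, hmN, aeval_C, mul_pow]
      have h2 : aeval X0 (Np W h i') ^ n =
          aeval X0 (Np W h i') ^ j * aeval X0 (Np W h i') ^ (n - j) := by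
        rw [← pow_add]
        congr 1
        omega
      rw [h2]
      ring
    rw [Finset.sum_congr rfl h1, ← Finset.mul_sum]
    have h3 : ∑ j ∈ Finset.range (n + 1), algebraMap K Ω ((minpoly K m).coeff j) * m ^ j =
        Polynomial.aeval m (minpoly K m) := by
      rw [Polynomial.aeval_eq_sum_range, hn]
      refine Finset.sum_congr rfl fun j _ => ?_
      rw [Algebra.smul_def]
    rw [h3, minpoly.aeval, mul_zero]
  have h4 := eval_of_dvd (generic i' h hi hd X0 hX hind _ hR) hx
  rw [map_sum] at h4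
  simp only [map_mul, map_pow, eval_Np, eval_C] at h4
  have hmon : (minpoly K m).coeff n = 1 := by
    rw [hn]
    exact minpoly.monic (isAlgebraic_iff_isIntegral.1 hm)
  by_cases hb : NN W h x i' = 0
  · exfalso
    rw [hb, Finset.sum_range_succ, Finset.sum_eq_zero, hmon, Nat.sub_self, pow_zero, one_mul,
      mul_one, zero_add] at h4
    · have h5 : NN W h x i0 = 0 := by
        by_contra h6
        exact pow_ne_zero n h6 h4
      rcases hN with hN | hN
      · exact hN h5
      · exact hN hb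
    · intro j hj
      rw [Finset.mem_range] at hj
      rw [zero_pow (by omega), mul_zero]
  · have h5 : (minpoly K m).eval (NN W h x i0 / NN W h x i') = 0 := by
      have h6 : NN W h x i' ^ n * (minpoly K m).eval (NN W h x i0 / NN W h x i') = 0 := by
        rw [Polynomial.eval_eq_sum_range, ← hn, Finset.mul_sum, ← h4]
        refine Finset.sum_congr rfl fun j hj => ?_
        have hj' : j ≤ n := by
          rw [Finset.mem_range] at hj
          omega
        have h2 : NN W h x i' ^ n = NN W h x i' ^ j * NN W h x i' ^ (n - j) := by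
          rw [← pow_add]
          congr 1
          omega
        rw [h2, div_pow]
        field_simp
      exact (mul_eq_zero.1 h6).resolve_left (pow_ne_zero n hb)
    have h7 := root_eq hm h5
    rw [h7, ← map_mul, div_mul_cancel₀ _ hb]

end gen

theorem t : S_SLP := by
  intro K _ _ σ _ _ W _ h2 h0 i0 i' hne hi2 hi0 hd2 hd0 x2 x0 hx2 hx0 hN Ω _ _ X2 X0 hX2 hX0 hind heq
  have hind2 : AlgebraicIndependent K (fun i : {i : σ // i ≠ i'} => X2 i) := by
    have := hind.comp Sum.inl Sum.inl_injective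
    exact this
  have hind0 : AlgebraicIndependent K (fun i : {i : σ // i ≠ i'} => X0 i) := by
    have := hind.comp Sum.inr Sum.inr_injective
    exact this
  have hN2 : NN W h2 x2 i0 ≠ 0 ∨ NN W h2 x2 i' ≠ 0 := by
    by_contra hc
    push Not at hc
    rw [hc.1, hc.2] at hN
    exact hN (by ring)
  have hN0 : NN W h0 x0 i0 ≠ 0 ∨ NN W h0 x0 i' ≠ 0 := by
    by_contra hc
    push Not at hc
    rw [hc.1, hc.2] at hN
    exact hN (by ring)
  have l2 := last_ne W h2 i0 i' hne hi2 hd2 x2 hx2 hN2 X2 hX2 hind2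
  have l0 := last_ne W h0 i0 i' hne hi0 hd0 x0 hx0 hN0 X0 hX0 hind0
  rw [← aeval_Np, ← aeval_Np, ← aeval_Np, ← aeval_Np] at heq
  obtain ⟨m, hm⟩ : ∃ m, m = aeval X2 (Np W h2 i0) / aeval X2 (Np W h2 i') := ⟨_, rfl⟩
  have hm2 : aeval X2 (Np W h2 i0) = m * aeval X2 (Np W h2 i') := by
    rw [hm, div_mul_cancel₀ _ l2]
  have hm0 : aeval X0 (Np W h0 i0) = m * aeval X0 (Np W h0 i') := by
    rw [hm, div_mul_eq_mul_div, heq, mul_div_assoc, div_self l2, mul_one]
  have a2 : IsAlgebraic (Algebra.adjoin K (Set.range fun i : {i : σ // i ≠ i'} => X2 i)) m := by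
    rw [hm, div_eq_mul_inv]
    exact (alg_val i' h2 hd2 X2 hX2 hind2 _).mul (alg_val i' h2 hd2 X2 hX2 hind2 _).inv
  have a0 : IsAlgebraic (Algebra.adjoin K (Set.range fun i : {i : σ // i ≠ i'} => X0 i)) m := by
    have : m = aeval X0 (Np W h0 i0) / aeval X0 (Np W h0 i') := by
      rw [hm0, mul_div_assoc, div_self l0, mul_one]
    rw [this, div_eq_mul_inv]
    exact (alg_val i' h0 hd0 X0 hX0 hind0 _).mul (alg_val i' h0 hd0 X0 hX0 hind0 _).inv
  have hmK : IsAlgebraic K m := alg_inter _ _ hind m a2 a0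
  have s2 := slope_eq W h2 i0 i' hi2 hd2 x2 hx2 hN2 X2 hX2 hind2 m hmK hm2
  have s0 := slope_eq W h0 i0 i' hi0 hd0 x0 hx0 hN0 X0 hX0 hind0 m hmK hm0
  apply hN
  apply (algebraMap K Ω).injective
  rw [map_mul, map_mul, s2, s0]
  ring

end

end Pool.Agent.Helper89.T3.SLP
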